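import Mathlib
import Pool.Agent.T6.H52.Cvx.Compact

/-!
# A compact, totally disconnected, Lebesgue null planar set that is not c-removable

The set is the bad set of a self-similar function `F (x, y) = δ ∑ w_i (x) F (2x, y / δ - c_i)`:
a vertical derivative jump is split again and again into tiny jumps at heights `δ c_i` with
smooth weights `w_i (x)`, half of which vanish near the integers and half near the half-integers.
The bad set has null projection on the `y`-axis and contains no horizontal segment.
-/

set_option autoImplicit false

open MeasureTheory

namespace Pool.Agent.Results.MP_034ae1_an.NullNotRemovable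

/-- `f` is locally convex on `U`: every point of `U` has an open convex neighbourhood `V ⊆ U` on
which `f` is convex. -/
def LocallyConvexOn (f : ℝ × ℝ → ℝ) (U : Set (ℝ × ℝ)) : Prop :=
  ∀ z ∈ U, ∃ V : Set (ℝ × ℝ), IsOpen V ∧ Convex ℝ V ∧ z ∈ V ∧ V ⊆ U ∧ ConvexOn ℝ V f

/-- A planar set `A` is c-removable if every continuous real function on the plane which is
locally convex on the complement of `A` is convex on the whole plane. -/
def CRemovable (A : Set (ℝ × ℝ)) : Prop :=
  ∀ f : ℝ × ℝ → ℝ, Continuous f → LocallyConvexOn f Aᶜ → ConvexOn ℝ Set.univ f

/-- There is a compact, totally disconnected set in the plane, of two-dimensional Lebesgue measure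
zero (and even with Lebesgue null projection on the second axis), that is not c-removable. -/
theorem result : ∃ E : Set (ℝ × ℝ), IsCompact E ∧ IsTotallyDisconnected E ∧ volume E = 0 ∧
    volume (Prod.snd '' E) = 0 ∧ ¬ CRemovable E := by
  obtain ⟨E, h1, h2, h3, h4, f, h5, h6, h7⟩ := T6H52.Cvx.exists_compact_nonremovable
  exact ⟨E, h1, h2, h3, h4, fun h => h7 (h f h5 h6)⟩

end Pool.Agent.Results.MP_034ae1_an.NullNotRemovable
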